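import Mathlib
import Pool.Agent.TH115.GD.Defs
import Pool.Agent.TH115.ID.Defs
import Pool.Agent.X243.Gen.Main

/-!
# The Tate conjecture at 2 over all finitely generated fields of characteristic different from 2, for
# 100% of the elliptic surfaces with a section of order two

Let `R` be an integrally closed domain which is finitely generated as a ring and not a field, with
`2 ≠ 0` in `R`, and `k` its field of fractions. (Each infinite finitely generated field of
characteristic different from 2 is the field of fractions of such an `R`: the rings of integers of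
number fields, `F_q[s]` or the coordinate ring of a smooth affine curve over a finite field, `ℤ[s]`,
`ℤ[s_1, ..., s_r]` and so on.) Every elliptic surface over the projective line over `k` with a section of
order two has the generic fibre

`E : y² = x (x² + a x + b)`

with polynomials `a`, `b` in the variable `t` over `k`, or over `R`; it has geometric genus at most `n - 1` if
and only if one can take `deg a ≤ 2 n`, `deg b ≤ 4 n`. So the polynomials `a` of degree at most `m` and `b` of
degree at most `N` with `m = 2 n`, `N = 4 n` parametrize these surfaces. Put `d = a² - 4 b`. (If `k` is a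
function field of a variety `V` over a finite field or over a number field, these are families of
elliptic surfaces over `V`, and in general they are not constant families.)

Call `(a, b)` good if `b` and `d` are irreducible over `k`, of degree `N`, separable, and for EVERY
extension field `L` of `k` (for example `L = k`) with a separable closure `L'` the following holds.

(A) If the elements of `L` which are separable algebraic over `k` lie in a normal extension `M` of `k` in
`L'`, such that neither `b` nor `d` splits into linear factors over `M`, then the Tate conjecture for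
divisors at the prime 2 holds for the surface over `L`.

(B) If for each element of `L` which is separable algebraic over `k` the Galois group of its minimal
polynomial over `k` is solvable, then the Tate conjecture for divisors at the prime 2 holds for the
surface over `L`.

Theorem. Let `2 m ≤ N`, `N ≥ 5` (for example `m = 2 n`, `N = 4 n`, `n ≥ 2`).

(1) (Congruences.) For every `η > 0` there is an ideal `M` of `R` with finite quotient and a set of
residue classes modulo `M` of pairs `(a, b)` over `R`, `a` of degree at most `m`, `b` of degree at most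
`N` in `t`, with proportion at least `1 - η` among all the residue classes, such that EVERY pair over `R`
in one of these residue classes is good.

(2) (100%.) Let `B 0`, `B 1`, ... be a sequence of nonempty finite sets of such pairs over `R` which is
equidistributed modulo each ideal of `R` with finite quotient. Then the proportion of the good pairs
in `B i` tends to `1`.

The condition in (2) holds for the usual orderings, for example for the pairs with all coefficients
in `[-i, i]` if `R = ℤ`; for the pairs whose coefficients are polynomials in `s` of degree less than `i`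
if `R = F_q[s]`; and for the pairs whose coefficients are polynomials in `s_1, ..., s_r` of degree
less than `i` with coefficients in `[-C_i, C_i]`, `C_i` growing fast enough, if `R = ℤ[s_1, ..., s_r]`.

`TateAtTwo` is the statement about the Galois-invariant classes in the 2-adic Selmer group; as
`Br(X ⊗ L') = Ш(E / L'(t))` away from the characteristic (Grothendieck), it is the Tate conjecture for
divisors at the prime 2 on `X` over `L`.

The proof: (i) Frobenius elements at maximal ideals of `R` (decomposition groups in the integral closure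
of `R` in a finite Galois extension) modulo which `b` is irreducible, has an irreducible factor of degree
`N - 1`, or is the product of an irreducible factor of degree two and of distinct linear factors, show
that `b` is irreducible and the Galois group of `b` over `k` is the full symmetric group; the same for
`d`; (ii) so the Galois group of `b` over `M` contains the alternating group, and `b` stays irreducible
over `L` and is not a constant times a norm from a quadratic extension of `L`; (iii) for such `b` and `d` a
descent via the isogenies of degree two shows that the conjecture holds; (iv) for all maximal ideals of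
`R` with a large residue field of odd characteristic (there are infinitely many, as `R` is a Jacobson
ring) a positive proportion of the residue classes has each of these properties, and a sieve.
-/

namespace Pool.Agent.Results.MP_17a657_ag.FinitelyGeneratedFields

open Polynomial Pool.Agent.TH115.GD Filter Topology
open scoped Classical

/-- The polynomial over `k` with the coefficients `c`. -/
noncomputable def poly {R : Type} [CommRing R] (k : Type) [Field k] [Algebra R k] {r : ℕ}
    (c : Fin r → R) : k[X] :=
  ∑ j : Fin r, C (algebraMap R k (c j)) * X ^ (j : ℕ)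

/-- The Tate conjecture at 2 for `y² = x (x² + a x + b)` over `L` (`L'` is a separable closure of `L`,
`K = L(t)`, `F = L'(t)`), for the polynomials `a`, `b` over the subfield `k` of `L`. -/
def TateOver {k : Type} [Field k] (a b : k[X]) (L L' K F : Type) [Field L] [Field L'] [Algebra L L']
    [Field K] [Algebra L[X] K] [Field F] [Algebra L'[X] F] [IsFractionRing L'[X] F] [Algebra K F]
    [Algebra k L] : Prop :=
  TateAtTwo (F := F) L' (crvT (algebraMap L[X] K (a.map (algebraMap k L)))
    (algebraMap L[X] K (b.map (algebraMap k L))))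

/-- The good pairs. -/
structure Good (k : Type) [Field k] (N : ℕ) (a b : k[X]) : Prop where
  irrB : Irreducible b ∧ b.natDegree = N ∧ b.Separable
  irrD : Irreducible (a ^ 2 - 4 * b) ∧ (a ^ 2 - 4 * b).natDegree = N ∧ (a ^ 2 - 4 * b).Separable
  tate : ∀ (L L' K F : Type) [Field L] [Field L'] [Algebra L L'] [Field K] [Algebra L[X] K]
    [Field F] [Algebra L'[X] F] [IsFractionRing L'[X] F] [Algebra K F]
    [Algebra k L] [Algebra k L'] [IsScalarTower k L L'], IsTower L L' K F →
      ∀ M : IntermediateField k L', Normal k M →
        (∀ x : L, IsSeparable k x → algebraMap L L' x ∈ M) →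
        ¬ (b.map (algebraMap k M)).Splits → ¬ ((a ^ 2 - 4 * b).map (algebraMap k M)).Splits →
        TateOver a b L L' K F
  solv : ∀ (L L' K F : Type) [Field L] [Field L'] [Algebra L L'] [Field K] [Algebra L[X] K]
    [Field F] [Algebra L'[X] F] [IsFractionRing L'[X] F] [Algebra K F]
    [Algebra k L] [Algebra k L'] [IsScalarTower k L L'], IsTower L L' K F →
      (∀ x : L, IsSeparable k x → Group.IsSolvable (minpoly k x).Gal) →
        TateOver a b L L' K F

/-- The pairs of coefficient vectors of polynomials of degrees at most `m`, `N`. -/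
abbrev Pairs (m N : ℕ) (R : Type) : Type := (Fin (m + 1) → R) × (Fin (N + 1) → R)

/-- The pair `y` over `R` is in the residue class `z`. -/
def InClass {R : Type} [CommRing R] {m N : ℕ} {M : Ideal R} (y : Pairs m N R)
    (z : Pairs m N (R ⧸ M)) : Prop :=
  (∀ j, Ideal.Quotient.mk M (y.1 j) = z.1 j) ∧ (∀ j, Ideal.Quotient.mk M (y.2 j) = z.2 j)

/-- A sequence of finite sets of pairs which is equidistributed modulo each ideal with finite
quotient. -/
def Equidistributed {R : Type} [CommRing R] {m N : ℕ} (B : ℕ → Finset (Pairs m N R)) : Prop :=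
  ∀ M : Ideal R, Finite (R ⧸ M) → ∀ z : Pairs m N (R ⧸ M),
    Tendsto (fun i => (((B i).filter (fun y => InClass y z)).card : ℝ) / ((B i).card : ℝ)) atTop
      (𝓝 (1 / (Nat.card (Pairs m N (R ⧸ M)) : ℝ)))

theorem good_of {R k : Type} [CommRing R] [IsDomain R] [IsIntegrallyClosed R] [IsNoetherianRing R]
    [Field k] [Algebra R k] [IsFractionRing R k] (h2 : (2 : R) ≠ 0)
    {m N B : ℕ} (hmN : 2 * m ≤ N) (hN : 5 ≤ N) {y : Fin (m + 1) ⊕ Fin (N + 1) → R}
    (h : ∀ s : Bool × Fin 3, ∃ p ∈ Pool.Agent.X243.Gen.Zg R B,
      (fun j => Ideal.Quotient.mk p (y j)) ∈ Pool.Agent.X243.Sol.Gev3 m N s (R ⧸ p)) :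
    Good k N (poly k (y ∘ Sum.inl)) (poly k (y ∘ Sum.inr)) := by
  have h2k : (2 : k) ≠ 0 := by
    rw [← map_ofNat (algebraMap R k) 2]
    exact (map_ne_zero_iff _ (IsFractionRing.injective R k)).2 h2
  obtain ⟨h1, h3⟩ := Pool.Agent.X243.Gen.goodG hmN (by omega) h
    (poly k (y ∘ Sum.inl)) (poly k (y ∘ Sum.inr))
    (Pool.Agent.X243.Tate.bF_map (algebraMap R k) (y ∘ Sum.inl)).symm
    (Pool.Agent.X243.Tate.bF_map (algebraMap R k) (y ∘ Sum.inr)).symm
  refine ⟨⟨h1.1.1, h1.1.2, h1.2.1⟩, ⟨h3.1.1, h3.1.2, h3.2.1⟩, ?_, ?_⟩
  · intro L L' K F _ _ _ _ _ _ _ _ _ _ _ _ hT M hMn hM hb hd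
    exact Pool.Agent.X243.Gen.tate_extG h2k hN h1 h3 hT M hMn hM hb hd
  · intro L L' K F _ _ _ _ _ _ _ _ _ _ _ _ hT hM
    exact Pool.Agent.X243.Gen.tate_solvG h2k hN h1 h3 hT hM

/-- The vector of all the coefficients. -/
def toVec {R : Type} {m N : ℕ} (z : Pairs m N R) : Fin (m + 1) ⊕ Fin (N + 1) → R :=
  Sum.elim z.1 z.2

theorem toVec_inj {R : Type} {m N : ℕ} : Function.Injective (toVec (R := R) (m := m) (N := N)) := by
  rintro ⟨a, b⟩ ⟨a', b'⟩ h
  exact Prod.ext (funext fun j => congrFun h (Sum.inl j)) (funext fun j => congrFun h (Sum.inr j))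

theorem toVec_surj {R : Type} {m N : ℕ} (y : Fin (m + 1) ⊕ Fin (N + 1) → R) :
    ∃ z : Pairs m N R, toVec z = y := ⟨(y ∘ Sum.inl, y ∘ Sum.inr), Sum.elim_comp_inl_inr y⟩

theorem inClass_iff {R : Type} [CommRing R] {m N : ℕ} {M : Ideal R} (y : Pairs m N R)
    (z : Pairs m N (R ⧸ M)) :
    InClass y z ↔ ∀ j, Ideal.Quotient.mk M (toVec y j) = toVec z j := by
  constructor
  · rintro ⟨h1, h2⟩ (j | j)
    · exact h1 j
    · exact h2 j
  · intro h
    exact ⟨fun j => h (Sum.inl j), fun j => h (Sum.inr j)⟩

theorem result :
    ∀ (R k : Type) [CommRing R] [IsDomain R] [IsIntegrallyClosed R] [Algebra.FiniteType ℤ R]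
      [Field k] [Algebra R k] [IsFractionRing R k], ¬ IsField R → (2 : R) ≠ 0 →
      ∀ (m N : ℕ), 2 * m ≤ N → 5 ≤ N →
        (∀ η : ℝ, 0 < η → ∃ M : Ideal R, Finite (R ⧸ M) ∧
          (1 - η) * (Nat.card (Pairs m N (R ⧸ M)) : ℝ) ≤
          (({z : Pairs m N (R ⧸ M) | ∀ y : Pairs m N R, InClass y z →
                Good k N (poly k y.1) (poly k y.2)}.ncard : ℕ) : ℝ)) ∧
        (∀ B : ℕ → Finset (Pairs m N R), (∀ i, (B i).Nonempty) → Equidistributed B →
          Tendsto (fun i => (((B i).filter (fun y => Good k N (poly k y.1) (poly k y.2))).card : ℝ) /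
            ((B i).card : ℝ)) atTop (𝓝 1)) := by
  intro R k _ _ _ _ _ _ _ hR h2 m N hmN hN
  have : IsNoetherianRing R := Algebra.FiniteType.isNoetherianRing ℤ R
  have hcard : ∀ M : Ideal R, (Nat.card (Pairs m N (R ⧸ M)) : ℝ) =
      (Nat.card (R ⧸ M) : ℝ) ^ (Fintype.card (Fin (m + 1) ⊕ Fin (N + 1))) := by
    intro M
    rw [Nat.card_prod, Nat.card_fun, Nat.card_fun, Fintype.card_sum, Fintype.card_fin,
      Fintype.card_fin, Nat.card_fin, Nat.card_fin, pow_add _ (m + 1) (N + 1)]
    push_cast
    rfl
  -- the good vectors
  obtain ⟨S, hS⟩ : ∃ S : Set (Fin (m + 1) ⊕ Fin (N + 1) → R),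
      S = {y | Good k N (poly k (y ∘ Sum.inl)) (poly k (y ∘ Sum.inr))} := ⟨_, rfl⟩
  have hSmem : ∀ y : Pairs m N R, toVec y ∈ S ↔ Good k N (poly k y.1) (poly k y.2) := by
    intro y
    rw [hS]
    rfl
  have key : ∀ η : ℝ, 0 < η → ∃ M : Ideal R, Finite (R ⧸ M) ∧
      (1 - η) * (Nat.card (R ⧸ M) : ℝ) ^ (Fintype.card (Fin (m + 1) ⊕ Fin (N + 1))) ≤
        (({x : Fin (m + 1) ⊕ Fin (N + 1) → R ⧸ M | ∀ y : Fin (m + 1) ⊕ Fin (N + 1) → R,
          (∀ j, Ideal.Quotient.mk M (y j) = x j) → y ∈ S}).ncard : ℝ) := by
    intro η hη
    obtain ⟨M, hM, hd⟩ := Pool.Agent.X243.Gen.densOne R hR h2 (m := m) (by omega : 3 ≤ N) η hη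
    have := hM
    refine ⟨M, hM, hd.trans ?_⟩
    have h3 : ∀ S T : Set (Fin (m + 1) ⊕ Fin (N + 1) → R ⧸ M), S ⊆ T →
        ((S.ncard : ℕ) : ℝ) ≤ ((T.ncard : ℕ) : ℝ) := fun S T h => by
      exact_mod_cast Set.ncard_le_ncard h (Set.toFinite _)
    apply h3
    intro x hx y hy
    rw [hS]
    refine good_of h2 hmN hN (B := 2 * N + 2) (fun s => ?_)
    obtain ⟨p, hp, hp'⟩ := hx s
    exact ⟨p, hp, hp' y hy⟩
  constructor
  · intro η hη
    obtain ⟨M, hM, hd⟩ := key η hη
    have := hM
    refine ⟨M, hM, ?_⟩
    rw [hcard]
    refine hd.trans ?_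
    rw [← Set.ncard_image_of_injective _ (toVec_inj (R := R ⧸ M) (m := m) (N := N))]
    have h3 : ∀ S T : Set (Fin (m + 1) ⊕ Fin (N + 1) → R ⧸ M), S ⊆ T →
        ((S.ncard : ℕ) : ℝ) ≤ ((T.ncard : ℕ) : ℝ) := fun S T h => by
      exact_mod_cast Set.ncard_le_ncard h (Set.toFinite _)
    apply h3
    intro x hx
    obtain ⟨z, rfl⟩ := toVec_surj x
    refine ⟨z, fun y hy => ?_, rfl⟩
    rw [← hSmem]
    exact hx _ ((inClass_iff y z).1 hy)
  · intro B hB heq
    have hinj : Function.Injective (toVec (R := R) (m := m) (N := N)) := toVec_inj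
    have hc : ∀ (i : ℕ) (P : (Fin (m + 1) ⊕ Fin (N + 1) → R) → Prop) [DecidablePred P]
        (Q : Pairs m N R → Prop) [DecidablePred Q], (∀ y, P (toVec y) ↔ Q y) →
        (((B i).map ⟨toVec, hinj⟩).filter P).card = ((B i).filter Q).card := by
      intro i P _ Q _ hPQ
      rw [Finset.filter_map, Finset.card_map]
      congr 1
      ext y
      rw [Finset.mem_filter, Finset.mem_filter]
      exact and_congr_right fun _ => hPQ y
    have hlim := Pool.Agent.X243.Gen.tendsto_of_dens S key (fun i => (B i).map ⟨toVec, hinj⟩)
      (fun i => (hB i).map) (by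
        intro M hM x
        obtain ⟨z, rfl⟩ := toVec_surj x
        have h1 := heq M hM z
        rw [hcard] at h1
        refine h1.congr fun i => ?_
        rw [Finset.card_map, hc i _ (fun y => InClass y z) (fun y => (inClass_iff y z).symm)])
    refine hlim.congr fun i => ?_
    rw [Finset.card_map, hc i _ (fun y => Good k N (poly k y.1) (poly k y.2)) hSmem]

end Pool.Agent.Results.MP_17a657_ag.FinitelyGeneratedFields
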