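import Mathlib
import Pool.Agent.TH115.GD.Defs
import Pool.Agent.TH115.ID.Defs
import Pool.Agent.X243.Sol.Main

/-!
# The Tate conjecture at 2 over solvable and over regular extensions, for 100% of the elliptic surfaces
# with a section of order two

Let `k` be a number field. Every elliptic surface over the projective line over `k` with a section of
order two has the generic fibre

`E : y² = x (x² + a x + b)`

with polynomials `a`, `b` over `k`; it has geometric genus at most `n - 1` if and only if one can take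
`deg a ≤ 2 n`, `deg b ≤ 4 n`. So the polynomials `a` of degree at most `m` and `b` of degree at most `N` with
`m = 2 n`, `N = 4 n` parametrize these surfaces. Put `d = a² - 4 b`.

Call `(a, b)` good if `b` and `d` are irreducible over `k` of degree `N` and, for EVERY extension field `L`
of `k` (of finite or infinite degree, algebraic or not, for instance finitely generated) the following
holds. Let `L'` be a separable closure of `L`.

(A) If the elements of `L` which are algebraic over `k` lie in a normal extension `M` of `k` in `L'`, such that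
neither `b` nor `d` splits into linear factors over `M`, then the Tate conjecture for divisors at the prime 2
holds for the surface over `L`.

(B) If the elements of `L` which are algebraic over `k` can be expressed by radicals over `k` (that is, lie in
the smallest subfield of `L'` which contains `k` and is closed under taking roots), then the Tate
conjecture for divisors at the prime 2 holds for the surface over `L`.

For example `L` may be any finite extension of `k` with a solvable Galois closure; the infinite extension of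
all numbers which can be expressed by radicals over `k`, and each subfield; any
extension in which `k` is algebraically closed, like the function field of a geometrically integral
variety over `k`; or (by (A)) any finite extension of `k` whose Galois closure does not contain the splitting
fields of `b` and `d`.

Theorem. Let `m`, `N` be natural numbers, `2 m ≤ N`, `N ≥ 5` (for example `m = 2 n`, `N = 4 n`, `n ≥ 2`).

(1) (Ordering by height.) 100% of the pairs `(a, b)` of integral polynomials, `a` of degree at most `m`, `b` of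
degree at most `N`, are good: the proportion of the good pairs among the pairs with all coefficients in
`[-B, B]` tends to `1` as `B` tends to infinity. The exceptional set does not depend on `L`.

(2) (Congruences.) Let `k₀` be a subfield of `k`. For every `η > 0` there is an ideal `M ≠ 0` of the ring of
integers `O` of `k₀` and a set of residue classes modulo `M` of pairs `(a, b)` as above, with proportion
at least `1 - η` among all residue classes, such that EVERY pair of polynomials over `O` in one of
these residue classes is good (over `k`).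

`TateAtTwo` is the statement about the Galois-invariant classes in the 2-adic Selmer group; as
`Br(X ⊗ L') = Ш(E / L'(t))` (Grothendieck), it is the Tate conjecture for divisors at the prime 2 on `X`
over `L`.

The proof: (i) Frobenius elements at primes modulo which `b` is irreducible, has an irreducible factor of
degree `N - 1`, or is the product of an irreducible factor of degree two and of distinct linear
factors, show that the Galois group of `b` over `k` is the full symmetric group; the same for `d`;
(ii) so the Galois group of `b` over `M` contains the alternating group, and `b` stays irreducible over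
`L` and is not a constant times a norm from a quadratic extension of `L`; (iii) for such `b` and `d` a
descent via the isogenies of degree two shows that the conjecture holds; (iv) a positive proportion of
the residue classes modulo each prime has each of these properties, and a sieve.
-/

namespace Pool.Agent.Results.MP_17a657_ag.SolvableExtensions

open Polynomial Pool.Agent.TH115.GD NumberField
open scoped Classical

/-- The polynomial over `k` with the coefficients `c`. -/
noncomputable def poly {R : Type} [CommRing R] (k : Type) [Field k] [Algebra R k] {r : ℕ}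
    (c : Fin r → R) : k[X] :=
  ∑ j : Fin r, C (algebraMap R k (c j)) * X ^ (j : ℕ)

/-- The Tate conjecture at 2 for `y² = x (x² + a x + b)` over `L` (`L'` is a separable closure of `L`,
`K = L(t)`, `F = L'(t)`), for the polynomials `a`, `b` over the subfield `k` of `L`. -/
def TateOver {k : Type} [Field k] (a b : k[X]) (L L' K F : Type) [Field L] [Field L'] [Algebra L L']
    [Field K] [Algebra L[X] K] [Field F] [Algebra L'[X] F] [IsFractionRing L'[X] F] [Algebra K F]
    [Algebra k L] : Prop :=
  TateAtTwo (F := F) L' (crvT (algebraMap L[X] K (a.map (algebraMap k L)))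
    (algebraMap L[X] K (b.map (algebraMap k L))))

/-- The good pairs. -/
structure Good (k : Type) [Field k] (N : ℕ) (a b : k[X]) : Prop where
  irrB : Irreducible b
  degB : b.natDegree = N
  irrD : Irreducible (a ^ 2 - 4 * b)
  degD : (a ^ 2 - 4 * b).natDegree = N
  tate : ∀ (L L' K F : Type) [Field L] [Field L'] [Algebra L L'] [Field K] [Algebra L[X] K]
    [Field F] [Algebra L'[X] F] [IsFractionRing L'[X] F] [Algebra K F]
    [Algebra k L] [Algebra k L'] [IsScalarTower k L L'], IsTower L L' K F →
      ∀ M : IntermediateField k L', Normal k M →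
        (∀ x : L, IsAlgebraic k x → algebraMap L L' x ∈ M) →
        ¬ (b.map (algebraMap k M)).Splits → ¬ ((a ^ 2 - 4 * b).map (algebraMap k M)).Splits →
        TateOver a b L L' K F
  rad : ∀ (L L' K F : Type) [Field L] [Field L'] [Algebra L L'] [Field K] [Algebra L[X] K]
    [Field F] [Algebra L'[X] F] [IsFractionRing L'[X] F] [Algebra K F]
    [Algebra k L] [Algebra k L'] [IsScalarTower k L L'], IsTower L L' K F →
      (∀ x : L, IsAlgebraic k x → algebraMap L L' x ∈ solvableByRad k L') →
        TateOver a b L L' K F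

theorem good_of {A k : Type} [Field A] [NumberField A] [Field k] [NumberField k]
    [Algebra A k] {m N B : ℕ} (hmN : 2 * m ≤ N) (hN : 5 ≤ N)
    {y : Fin (m + 1) ⊕ Fin (N + 1) → 𝓞 A}
    (h : ∀ s : Bool × Fin 3, ∃ p ∈ Pool.Agent.X243.Tate.Zset A k B,
      (fun j => Ideal.Quotient.mk p.asIdeal (y j)) ∈
        Pool.Agent.X243.Sol.Gev3 m N s (𝓞 A ⧸ p.asIdeal)) :
    Good k N (poly k (y ∘ Sum.inl)) (poly k (y ∘ Sum.inr)) := by
  obtain ⟨⟨h1, h2⟩, ⟨h3, h4⟩⟩ := Pool.Agent.X243.Sol.tate_good3 hmN hN h
    (poly k (y ∘ Sum.inl)) (poly k (y ∘ Sum.inr))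
    (Pool.Agent.X243.Tate.bF_map (algebraMap (𝓞 A) k) (y ∘ Sum.inl)).symm
    (Pool.Agent.X243.Tate.bF_map (algebraMap (𝓞 A) k) (y ∘ Sum.inr)).symm
  refine ⟨h1.1, h1.2, h3.1, h3.2, ?_, ?_⟩
  · intro L L' K F _ _ _ _ _ _ _ _ _ _ _ _ hT M hMn hM hb hd
    exact Pool.Agent.X243.Sol.tate_ext hN h1 h3 h2 h4 hT M hMn hM hb hd
  · intro L L' K F _ _ _ _ _ _ _ _ _ _ _ _ hT hM
    exact Pool.Agent.X243.Sol.tate_rad hN h1 h3 h2 h4 hT hM

theorem result :
    (∀ (k : Type) [Field k] [NumberField k] (m N : ℕ), 2 * m ≤ N → 5 ≤ N →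
        Filter.Tendsto (fun B : ℕ =>
          (({z : (Fin (m + 1) → ℤ) × (Fin (N + 1) → ℤ) |
            (∀ j, |z.1 j| ≤ B) ∧ (∀ j, |z.2 j| ≤ B) ∧
              Good k N (poly k z.1) (poly k z.2)}.ncard : ℕ) : ℝ) /
          (({z : (Fin (m + 1) → ℤ) × (Fin (N + 1) → ℤ) |
            (∀ j, |z.1 j| ≤ B) ∧ (∀ j, |z.2 j| ≤ B)}.ncard : ℕ) : ℝ)) Filter.atTop (nhds 1)) ∧
    (∀ (k₀ k : Type) [Field k₀] [NumberField k₀] [Field k] [NumberField k] [Algebra k₀ k]
      (m N : ℕ), 2 * m ≤ N → 5 ≤ N → ∀ η : ℝ, 0 < η →
        ∃ M : Ideal (𝓞 k₀), M ≠ ⊥ ∧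
          (1 - η) * (Nat.card ((Fin (m + 1) → 𝓞 k₀ ⧸ M) × (Fin (N + 1) → 𝓞 k₀ ⧸ M)) : ℝ) ≤
          (({z : (Fin (m + 1) → 𝓞 k₀ ⧸ M) × (Fin (N + 1) → 𝓞 k₀ ⧸ M) |
            ∀ (α : Fin (m + 1) → 𝓞 k₀) (β : Fin (N + 1) → 𝓞 k₀),
              (∀ j, Ideal.Quotient.mk M (α j) = z.1 j) →
              (∀ j, Ideal.Quotient.mk M (β j) = z.2 j) →
                Good k N (poly k α) (poly k β)}.ncard : ℕ) : ℝ)) := by
  constructor
  · intro k _ _ m N hmN hN
    have key := Pool.Agent.X243.Tate.box_dens (ι := Fin (m + 1) ⊕ Fin (N + 1))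
      {y | Good k N (poly k (y ∘ Sum.inl)) (poly k (y ∘ Sum.inr))} (by
        intro η hη
        obtain ⟨M, hM, hd⟩ := Pool.Agent.X243.Sol.dens_three ℚ k (m := m) (by omega : 3 ≤ N) η hη
        have hfin : Finite (𝓞 ℚ ⧸ M) := Ideal.finiteQuotientOfFreeOfNeBot _ hM
        obtain ⟨T, hTdef⟩ : ∃ T : Set (Fin (m + 1) ⊕ Fin (N + 1) → 𝓞 ℚ ⧸ M),
            T = {x : Fin (m + 1) ⊕ Fin (N + 1) → 𝓞 ℚ ⧸ M | ∀ s : Bool × Fin 3,
              ∃ p ∈ Pool.Agent.X243.Tate.Zset ℚ k (2 * N + 2),
              ∀ y : Fin (m + 1) ⊕ Fin (N + 1) → 𝓞 ℚ,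
                (∀ j, Ideal.Quotient.mk M (y j) = x j) →
                (fun j => Ideal.Quotient.mk p.asIdeal (y j)) ∈
                  Pool.Agent.X243.Sol.Gev3 m N s (𝓞 ℚ ⧸ p.asIdeal)} := ⟨_, rfl⟩
        rw [← hTdef] at hd
        refine ⟨𝓞 ℚ ⧸ M, inferInstance, hfin, ?_, Tᶜ, ?_, ?_⟩
        rotate_left 1
        · have h1 := Set.ncard_add_ncard_compl T
          rw [Nat.card_fun, Nat.card_eq_fintype_card (α := Fin (m + 1) ⊕ Fin (N + 1))] at h1
          have h2 := congrArg (Nat.cast (R := ℝ)) h1
          rw [Nat.cast_add, Nat.cast_pow] at h2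
          linarith
        · intro y hy hgood
          apply hy
          rw [hTdef] at hgood
          have e1 : ∀ t : ℤ, algebraMap (𝓞 ℚ) k (t : 𝓞 ℚ) = algebraMap ℤ k t := by
            intro t
            rw [map_intCast, eq_intCast]
          have h3 := good_of (A := ℚ) (k := k) hmN hN (y := fun j => ((y j : ℤ) : 𝓞 ℚ))
            (B := 2 * N + 2) (fun s => by
              obtain ⟨p, hp, hp'⟩ := hgood s
              exact ⟨p, hp, hp' _ (fun j => map_intCast _ _)⟩)
          have e2 : (poly k ((fun j => ((y j : ℤ) : 𝓞 ℚ)) ∘ Sum.inl) : k[X]) =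
              poly k (y ∘ (Sum.inl : Fin (m + 1) → Fin (m + 1) ⊕ Fin (N + 1))) := by
            refine Finset.sum_congr rfl fun j _ => ?_
            rw [Function.comp, Function.comp, e1]
          have e3 : (poly k ((fun j => ((y j : ℤ) : 𝓞 ℚ)) ∘ Sum.inr) : k[X]) =
              poly k (y ∘ (Sum.inr : Fin (N + 1) → Fin (m + 1) ⊕ Fin (N + 1))) := by
            refine Finset.sum_congr rfl fun j _ => ?_
            rw [Function.comp, Function.comp, e1]
          rw [e2, e3] at h3
          exact h3
        · intro z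
          obtain ⟨x, rfl⟩ := Ideal.Quotient.mk_surjective z
          refine ⟨Rat.ringOfIntegersEquiv x, ?_⟩
          have h4 : ((Rat.ringOfIntegersEquiv x : ℤ) : 𝓞 ℚ) = x := by
            apply Rat.ringOfIntegersEquiv.injective
            rw [map_intCast, Int.cast_id]
          rw [eq_intCast, ← map_intCast (Ideal.Quotient.mk M), h4])
    have hE : Function.Injective (fun z : (Fin (m + 1) → ℤ) × (Fin (N + 1) → ℤ) =>
        Sum.elim z.1 z.2) := by
      rintro ⟨a, b⟩ ⟨a', b'⟩ h
      exact Prod.ext (funext fun j => congrFun h (Sum.inl j)) (funext fun j => congrFun h (Sum.inr j))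
    have hsplit : ∀ B : ℕ, ∀ z : (Fin (m + 1) → ℤ) × (Fin (N + 1) → ℤ),
        Sum.elim z.1 z.2 ∈ Pool.Agent.X243.Tate.box (Fin (m + 1) ⊕ Fin (N + 1)) B ↔
          (∀ j, |z.1 j| ≤ B) ∧ (∀ j, |z.2 j| ≤ B) := by
      intro B z
      constructor
      · intro h
        exact ⟨fun j => h (Sum.inl j), fun j => h (Sum.inr j)⟩
      · rintro ⟨h1, h2⟩ (j | j)
        · exact h1 j
        · exact h2 j
    have hsurj : ∀ y : Fin (m + 1) ⊕ Fin (N + 1) → ℤ, ∃ z : (Fin (m + 1) → ℤ) × (Fin (N + 1) → ℤ),
        Sum.elim z.1 z.2 = y := fun y => ⟨(y ∘ Sum.inl, y ∘ Sum.inr), Sum.elim_comp_inl_inr y⟩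
    refine key.congr fun B => ?_
    congr 2
    · rw [← Set.ncard_image_of_injective _ hE]
      congr 1
      ext y
      constructor
      · rintro ⟨h1, h2⟩
        obtain ⟨z, rfl⟩ := hsurj y
        exact ⟨z, ⟨((hsplit B z).1 h1).1, ((hsplit B z).1 h1).2, h2⟩, rfl⟩
      · rintro ⟨z, ⟨h1, h2, h3⟩, rfl⟩
        exact ⟨(hsplit B z).2 ⟨h1, h2⟩, h3⟩
    · rw [← Set.ncard_image_of_injective _ hE]
      congr 1
      ext y
      constructor
      · intro h1
        obtain ⟨z, rfl⟩ := hsurj y
        exact ⟨z, (hsplit B z).1 h1, rfl⟩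
      · rintro ⟨z, h1, rfl⟩
        exact (hsplit B z).2 h1
  · intro k₀ k _ _ _ _ _ m N hmN hN η hη
    obtain ⟨M, hM, hd⟩ := Pool.Agent.X243.Sol.dens_three k₀ k (m := m) (by omega : 3 ≤ N) η hη
    have hfin : Finite (𝓞 k₀ ⧸ M) := Ideal.finiteQuotientOfFreeOfNeBot _ hM
    refine ⟨M, hM, ?_⟩
    have hE : Function.Injective (fun z : (Fin (m + 1) → 𝓞 k₀ ⧸ M) × (Fin (N + 1) → 𝓞 k₀ ⧸ M) =>
        Sum.elim z.1 z.2) := by
      rintro ⟨a, b⟩ ⟨a', b'⟩ h
      exact Prod.ext (funext fun j => congrFun h (Sum.inl j)) (funext fun j => congrFun h (Sum.inr j))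
    have hc : (Nat.card ((Fin (m + 1) → 𝓞 k₀ ⧸ M) × (Fin (N + 1) → 𝓞 k₀ ⧸ M)) : ℝ) =
        (Nat.card (𝓞 k₀ ⧸ M) : ℝ) ^ (Fintype.card (Fin (m + 1) ⊕ Fin (N + 1))) := by
      rw [Nat.card_prod, Nat.card_fun, Nat.card_fun, Fintype.card_sum, Fintype.card_fin,
        Fintype.card_fin, Nat.card_fin, Nat.card_fin, pow_add _ (m + 1) (N + 1)]
      push_cast
      rfl
    rw [hc]
    refine hd.trans ?_
    have h1 := Set.ncard_image_of_injective {z : (Fin (m + 1) → 𝓞 k₀ ⧸ M) × (Fin (N + 1) → 𝓞 k₀ ⧸ M) |
            ∀ (α : Fin (m + 1) → 𝓞 k₀) (β : Fin (N + 1) → 𝓞 k₀),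
              (∀ j, Ideal.Quotient.mk M (α j) = z.1 j) →
              (∀ j, Ideal.Quotient.mk M (β j) = z.2 j) →
                Good k N (poly k α) (poly k β)} hE
    rw [← h1]
    have h2 : ∀ S T : Set (Fin (m + 1) ⊕ Fin (N + 1) → 𝓞 k₀ ⧸ M), S ⊆ T →
        ((S.ncard : ℕ) : ℝ) ≤ ((T.ncard : ℕ) : ℝ) := fun S T h => by
      exact_mod_cast Set.ncard_le_ncard h (Set.toFinite _)
    apply h2
    intro x hx
    refine ⟨(x ∘ Sum.inl, x ∘ Sum.inr), ?_, Sum.elim_comp_inl_inr x⟩
    intro α β hα hβ
    have h3 := good_of (A := k₀) (k := k) hmN hN (y := Sum.elim α β) (B := 2 * N + 2) (fun s => by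
      obtain ⟨p, hp, hp'⟩ := hx s
      refine ⟨p, hp, hp' _ ?_⟩
      rintro (j | j)
      · exact hα j
      · exact hβ j)
    exact h3

end Pool.Agent.Results.MP_17a657_ag.SolvableExtensions
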