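import Mathlib
import Pool.Agent.TH115.GD.Defs
import Pool.Agent.TH115.ID.Defs
import Pool.Agent.X243.Tate.Kap

/-!
# The Tate conjecture at 2 for elliptic surfaces with a section of order two and a section of infinite order

Let `k` be a field of characteristic different from 2 (for example finitely generated over its
prime field), `k'` a separable closure, `K = k(t)`, `F = k'(t)`. Let `p`, `q`, `w` be polynomials over
`k`, and let `X` be the elliptic surface over the projective line with the generic fibre

`E : y² = x (x² + (w² - p - q) x + p q)`.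

It has the section `(0, 0)` of order two and the section `(p, p w)`. (Every curve
`y² = x (x² + a x + b)` with polynomials `a`, `b` which has a `K`-point whose `x`-coordinate is a polynomial
dividing `b` is of this form.) The discriminant is `16 p² q² d` with `d = (w² - p - q)² - 4 p q`.

Theorem. (1) Suppose that `p`, `q` and `d` are irreducible and separable, `p` and `q` are coprime, and
that neither `p q` nor `d` is a constant times the norm of a polynomial over a quadratic extension of
`k` (for `p q` it is enough that the degree of `q` is odd, and for `d` that the degree of `d` is odd).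
Then the Tate conjecture for divisors at the prime 2 holds for `X`: every class in `V₂ Sel(E / F)` which is
fixed by the Galois group of `k` comes from `E(K)`; and `(p, p w)` gives a point of infinite order.

(2) Let `κ` be a field of characteristic zero and `k = κ(s)` (finitely generated if `κ` is). For all
polynomials `q`, `w` over `κ`, `q` irreducible of odd degree less than `2 deg w`, the conditions are
satisfied over `k` by `q`, `w` and `p = w² - q - s`; then `E` is the curve
`y² = x (x² + s x + q (w² - q - s))`.

There is no condition at infinity and no condition on `w` in (1), and the geometric genus is not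
bounded: it is `n - 1` if `n` is the least number with `deg (w² - p - q) ≤ 2 n`, `deg (p q) ≤ 4 n`.
(For `p`, `q` of degree `2 n` and `w` of degree `n` the family has codimension `n - 1 = p_g` in the family of
all elliptic surfaces with a section of order two.)

`TateAtTwo` is the statement about the Galois-invariant classes in the 2-adic Selmer group; as
`Br(X ⊗ k') = Ш(E / F)` up to `p`-torsion (Grothendieck), it is the Tate conjecture for divisors at the
prime 2 on `X`.

The proof is a descent by the 2-isogenies `E → E'`, `E' → E` for the classes fixed by the Galois group: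
the divisors `1`, `p`, `q`, `p q` of `p q` are represented by the points `0`, `(p, p w)`, `(q, q w)`,
`(0, 0)` of `E(K)`, and the divisors `1`, `d` of `d` by points of order two of `E'(K)`.
-/

namespace Pool.Agent.Results.MP_17a657_ag.TateRankOneTwoTorsion

open Polynomial Pool.Agent.TH115.GD
open scoped Classical

/-- The third factor of the discriminant. -/
noncomputable def disc {k : Type} [Field k] (p q w : k[X]) : k[X] :=
  (w ^ 2 - p - q) ^ 2 - 4 * (p * q)

/-- The conditions on the polynomials. -/
structure Admissible {k : Type} [Field k] (p q w : k[X]) : Prop where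
  irrP : Irreducible p
  irrQ : Irreducible q
  irrD : Irreducible (disc p q w)
  sepP : p.Separable
  sepQ : q.Separable
  sepD : (disc p q w).Separable
  cop : IsCoprime p q
  notNorm : Odd q.natDegree ∨ NotNorm (p * q)
  notNormD : Odd (disc p q w).natDegree ∨ NotNorm (disc p q w)

/-- The curve `y² = x (x² + (w² - p - q) x + p q)` over `K = k(t)`. -/
noncomputable def curve {k : Type} [Field k] (K : Type) [Field K] [Algebra k[X] K] (p q w : k[X]) :
    WeierstrassCurve K :=
  crvT (algebraMap k[X] K (w ^ 2 - p - q)) (algebraMap k[X] K (p * q))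

theorem odd_factor {k : Type} [Field k] {p q : k[X]} (hq : Irreducible q)
    (hco : IsCoprime p q) (hodd : Odd q.natDegree) : HasOddFactor (p * q) := by
  refine ⟨q, 0, hq, hodd, by simp, ?_⟩
  rintro ⟨w, hw⟩
  have h1 : p = q * w := by
    apply mul_right_cancel₀ hq.ne_zero
    rw [hw]; ring
  exact hq.not_isUnit (hco.isUnit_of_dvd' ⟨w, h1⟩ dvd_rfl)

theorem result :
    (∀ (k k' K F : Type) [Field k] [Field k'] [Algebra k k'] [Field K] [Algebra k[X] K]
      [Field F] [Algebra k'[X] F] [IsFractionRing k'[X] F] [Algebra K F],
      IsTower k k' K F → (2 : k) ≠ 0 → ∀ p q w : k[X], Admissible p q w →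
        TateAtTwo (F := F) k' (curve K p q w) ∧
          ∃ P : Pt (curve K p q w) K, ∀ n : ℕ, 0 < n → n • P ≠ 0) ∧
    (∀ (κ k : Type) [Field κ] [CharZero κ] [Field k] [Algebra κ[X] k] [IsFractionRing κ[X] k]
      (q w : κ[X]), Irreducible q → Odd q.natDegree → q.natDegree < 2 * w.natDegree →
        Admissible ((w.map ((algebraMap κ[X] k).comp C)) ^ 2 -
          q.map ((algebraMap κ[X] k).comp C) - C (algebraMap κ[X] k X))
          (q.map ((algebraMap κ[X] k).comp C)) (w.map ((algebraMap κ[X] k).comp C))) := by
  constructor
  · intro k k' K F _ _ _ _ _ _ _ _ _ hT h2 p q w A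
    haveI := hT.fracK
    have hNb : NotNorm (p * q) := A.notNorm.elim
      (fun h => Pool.Agent.X243.Tate.notNorm_of_factor (odd_factor A.irrQ A.cop h)) id
    have hNd : NotNorm (disc p q w) := A.notNormD.elim notNorm_of_odd id
    exact ⟨Pool.Agent.X243.Tate.tate_one hT h2 A.irrP A.irrQ A.sepP A.sepQ A.irrD A.sepD hNb hNd,
      Pool.Agent.X243.Tate.inf_order h2 A.irrP A.irrQ A.cop A.irrD⟩
  · intro κ k _ _ _ _ _ q w hq hodd hdeg
    have hinj : Function.Injective ((algebraMap κ[X] k).comp C) :=
      (IsFractionRing.injective κ[X] k).comp C_injective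
    haveI : CharZero k := charZero_of_injective_ringHom hinj
    have h2 : (2 : κ) ≠ 0 := two_ne_zero
    have i1 : Irreducible (q.map ((algebraMap κ[X] k).comp C)) :=
      Pool.Agent.X243.Tate.irr_q hq
    have i2 : Irreducible ((w.map ((algebraMap κ[X] k).comp C)) ^ 2 -
        q.map ((algebraMap κ[X] k).comp C) - C (algebraMap κ[X] k X)) :=
      Pool.Agent.X243.Tate.irr_p hdeg
    have e : disc ((w.map ((algebraMap κ[X] k).comp C)) ^ 2 -
        q.map ((algebraMap κ[X] k).comp C) - C (algebraMap κ[X] k X))
        (q.map ((algebraMap κ[X] k).comp C)) (w.map ((algebraMap κ[X] k).comp C)) =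
        (C (algebraMap κ[X] k X)) ^ 2 -
      4 * (((w.map ((algebraMap κ[X] k).comp C)) ^ 2 - q.map ((algebraMap κ[X] k).comp C) -
        C (algebraMap κ[X] k X)) * q.map ((algebraMap κ[X] k).comp C)) := by
      rw [disc]; ring
    have i3 : Irreducible (disc ((w.map ((algebraMap κ[X] k).comp C)) ^ 2 -
        q.map ((algebraMap κ[X] k).comp C) - C (algebraMap κ[X] k X))
        (q.map ((algebraMap κ[X] k).comp C)) (w.map ((algebraMap κ[X] k).comp C))) := by
      rw [e]
      exact Pool.Agent.X243.Tate.irr_d h2 hodd hdeg
    have dq : (q.map ((algebraMap κ[X] k).comp C)).natDegree = q.natDegree :=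
      natDegree_map_eq_of_injective hinj q
    have dw : (w.map ((algebraMap κ[X] k).comp C)).natDegree = w.natDegree :=
      natDegree_map_eq_of_injective hinj w
    set Q := q.map ((algebraMap κ[X] k).comp C) with hQ
    set W := w.map ((algebraMap κ[X] k).comp C) with hW
    set s := algebraMap κ[X] k X with hs
    have dW2 : (W ^ 2).natDegree = 2 * w.natDegree := by rw [natDegree_pow, dw]
    have dp1 : (W ^ 2 - Q).natDegree = 2 * w.natDegree := by
      rw [natDegree_sub_eq_left_of_natDegree_lt (by rw [dW2, dq]; exact hdeg), dW2]
    have dp : (W ^ 2 - Q - C s).natDegree = 2 * w.natDegree := by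
      rw [natDegree_sub_eq_left_of_natDegree_lt (by rw [dp1, natDegree_C]; omega), dp1]
    have h4 : (4 : k) ≠ 0 := by norm_num
    have e4 : (4 : k[X]) = C 4 := rfl
    have dd : (disc (W ^ 2 - Q - C s) Q W).natDegree = 2 * w.natDegree + q.natDegree := by
      have e5 : (4 * ((W ^ 2 - Q - C s) * Q)).natDegree = 2 * w.natDegree + q.natDegree := by
        rw [e4, natDegree_C_mul h4, natDegree_mul i2.ne_zero i1.ne_zero, dp, dq]
      rw [e, natDegree_sub_eq_right_of_natDegree_lt, e5]
      rw [e5, ← C_pow, natDegree_C]
      omega
    refine ⟨i2, i1, i3, i2.separable, i1.separable, i3.separable, ?_, Or.inl ?_, Or.inl ?_⟩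
    · rw [i2.coprime_iff_not_dvd]
      intro hd
      have h5 := natDegree_le_of_dvd hd i1.ne_zero
      rw [dp, dq] at h5
      omega
    · rw [dq]; exact hodd
    · rw [dd]
      obtain ⟨j, hj⟩ := hodd
      exact ⟨w.natDegree + j, by omega⟩

end Pool.Agent.Results.MP_17a657_ag.TateRankOneTwoTorsion
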