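import Mathlib
import Pool.Agent.TH115.GD.Defs
import Pool.Agent.TH115.ID.Defs
import Pool.Agent.X243.Gen.Adm

/-!
# The Tate conjecture at 2 for almost all members of families of elliptic surfaces of unbounded rank
# over finitely generated fields of characteristic `p`, with a modulus independent of the parameter `f`

Let `q = p ^ ν` be a power of a prime with `q = 1` modulo `4`. Let `R` be an integrally closed domain of
characteristic `p`, finitely generated as a ring and not a field, and `k` its field of fractions
(every infinite finitely generated field of characteristic `p` is of this form), such that `k` contains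
`i` with `i ² = -1` and a primitive root of unity of order `q + 1`. For polynomials `f ≠ 0` and `h` in the
variable `t` over `R` let `X` be the elliptic surface over the projective line over `k` with the
generic fibre

`E : y ² = x (x - f ^ (q + 1) - h ^ ((q + 1) / 2)) (x - f ^ (q + 1) + h ^ ((q + 1) / 2))`.

Let `N ≥ 5` be odd and `2 deg f < N`. Call `(f, h)` good if `h` has degree `N`, `h` and `h - ζ f ²`, for all
`ζ` with `ζ ^ (q + 1) = 1`, are irreducible and separable over `k`, and for EVERY extension field `L` of
`k` (for example `L = k`) with a separable closure `L'` the following holds.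

(A) If the elements of `L` which are separable algebraic over `k` lie in a normal extension `M` of `k` in
`L'`, such that none of the polynomials `h`, `h - ζ f ²` splits into linear factors over `M`, then the Tate
conjecture for divisors at the prime 2 holds for `X` over `L`, and `E(L(t))` contains `q` linearly
independent points.

(B) The same holds if for each element of `L` which is separable algebraic over `k` the Galois group of
its minimal polynomial over `k` is solvable.

Theorem. (1) (Congruences, uniform in `f`.) For every `η > 0` there is an ideal `M` of `R` with finite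
quotient such that for EVERY polynomial `f ≠ 0` over `R` with `2 deg f < N` there is a set of residue
classes modulo `M` of polynomials `h` of degree at most `N`, with proportion at least `1 - η` among all
the residue classes, such that for every `h` over `R` in one of these classes `(f, h)` is good.

(2) (100%.) For every such `f` and every sequence `B 0`, `B 1`, ... of nonempty finite sets of
polynomials `h` over `R` of degree at most `N` which is equidistributed modulo each ideal of `R` with
finite quotient, the proportion of the `h` in `B j` such that `(f, h)` is good tends to `1`.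

The condition in (2) holds for example for `R = κ[s]`, `κ` a finite field of characteristic `p` with enough
roots of unity, and the sets of all polynomials `h` whose coefficients have degree less than `j` in `s`.
The number `q` of independent sections, and the geometric genus of `X`, are unbounded.

`TateAtTwo` is the statement that the Galois-invariant classes of the 2-adic Selmer group come from
points; as `Br(X ⊗ L') = Ш(E / L'(t))` up to `p`-torsion (Grothendieck), it is the Tate conjecture for
divisors at the prime 2 on `X` over `L`.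
-/

namespace Pool.Agent.Results.MP_17a657_ag.UnboundedRankAlmostAll

open Polynomial Pool.Agent.TH115.GD Filter Topology
open Pool.Agent.TH958.T2 (Admissible curve)
open scoped Classical

/-- The polynomial over `k` with the coefficients `c`. -/
noncomputable def poly {R : Type} [CommRing R] (k : Type) [Field k] [Algebra R k] {r : ℕ}
    (c : Fin r → R) : k[X] :=
  ∑ j : Fin r, C (algebraMap R k (c j)) * X ^ (j : ℕ)

/-- The Tate conjecture at 2 for `E` over `L` (`L'` is a separable closure of `L`, `K = L(t)`,
`F = L'(t)`), and `q` linearly independent points in `E(L(t))`, for `f`, `h` over the subfield `k`. -/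
def HoldsOver {k : Type} [Field k] (q : ℕ) (f h : k[X]) (L L' K F : Type) [Field L] [Field L']
    [Algebra L L'] [Field K] [Algebra L[X] K] [Field F] [Algebra L'[X] F] [IsFractionRing L'[X] F]
    [Algebra K F] [Algebra k L] : Prop :=
  TateAtTwo (F := F) L' (curve K q (f.map (algebraMap k L)) (h.map (algebraMap k L))) ∧
    ∃ P : Fin q → Pt (curve K q (f.map (algebraMap k L)) (h.map (algebraMap k L))) K,
      LinearIndependent ℤ P

/-- The good pairs. -/
structure Good (k : Type) [Field k] (q N : ℕ) (f h : k[X]) : Prop where
  deg : h.natDegree = N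
  adm : Admissible q f h
  tate : ∀ (L L' K F : Type) [Field L] [Field L'] [Algebra L L'] [Field K] [Algebra L[X] K]
    [Field F] [Algebra L'[X] F] [IsFractionRing L'[X] F] [Algebra K F]
    [Algebra k L] [Algebra k L'] [IsScalarTower k L L'], IsTower L L' K F →
      ∀ M : IntermediateField k L', Normal k M →
        (∀ x : L, IsSeparable k x → algebraMap L L' x ∈ M) →
        ¬ (h.map (algebraMap k M)).Splits →
        (∀ ζ : k, ζ ^ (q + 1) = 1 → ¬ ((h - C ζ * f ^ 2).map (algebraMap k M)).Splits) →
          HoldsOver q f h L L' K F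
  solv : ∀ (L L' K F : Type) [Field L] [Field L'] [Algebra L L'] [Field K] [Algebra L[X] K]
    [Field F] [Algebra L'[X] F] [IsFractionRing L'[X] F] [Algebra K F]
    [Algebra k L] [Algebra k L'] [IsScalarTower k L L'], IsTower L L' K F →
      (∀ x : L, IsSeparable k x → Group.IsSolvable (minpoly k x).Gal) →
        HoldsOver q f h L L' K F

/-- The vector `y` over `R` is in the residue class `z`. -/
def InClass {R : Type} [CommRing R] {n : ℕ} {M : Ideal R} (y : Fin n → R)
    (z : Fin n → R ⧸ M) : Prop := ∀ j, Ideal.Quotient.mk M (y j) = z j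

/-- A sequence of finite sets of vectors which is equidistributed modulo each ideal with finite
quotient. -/
def Equidistributed {R : Type} [CommRing R] {n : ℕ} (B : ℕ → Finset (Fin n → R)) : Prop :=
  ∀ M : Ideal R, Finite (R ⧸ M) → ∀ z : Fin n → R ⧸ M,
    Tendsto (fun i => (((B i).filter (fun y => InClass y z)).card : ℝ) / ((B i).card : ℝ)) atTop
      (𝓝 (1 / (Nat.card (Fin n → R ⧸ M) : ℝ)))

theorem result :
    ∀ (p ν : ℕ) [Fact p.Prime], p ^ ν % 4 = 1 → 0 < ν →
      ∀ (R k : Type) [CommRing R] [IsDomain R] [IsIntegrallyClosed R] [Algebra.FiniteType ℤ R]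
        [CharP R p] [Field k] [Algebra R k] [IsFractionRing R k], ¬ IsField R →
        ∀ i ω : k, i ^ 2 = -1 → IsPrimitiveRoot ω (p ^ ν + 1) → ∀ N : ℕ, 5 ≤ N → Odd N →
        (∀ η : ℝ, 0 < η → ∃ M : Ideal R, Finite (R ⧸ M) ∧
          ∀ f : R[X], f ≠ 0 → 2 * f.natDegree < N →
          (1 - η) * (Nat.card (Fin (N + 1) → R ⧸ M) : ℝ) ≤
          (({z : Fin (N + 1) → R ⧸ M | ∀ y : Fin (N + 1) → R, InClass y z →
                Good k (p ^ ν) N (f.map (algebraMap R k)) (poly k y)}.ncard : ℕ) : ℝ)) ∧
        (∀ f : R[X], f ≠ 0 → 2 * f.natDegree < N →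
          ∀ B : ℕ → Finset (Fin (N + 1) → R), (∀ j, (B j).Nonempty) → Equidistributed B →
          Tendsto (fun j => (((B j).filter (fun y => Good k (p ^ ν) N (f.map (algebraMap R k))
            (poly k y))).card : ℝ) / ((B j).card : ℝ)) atTop (𝓝 1)) := by
  intro p ν _ h4 hν R k _ _ _ _ _ _ _ _ hR i ω hi hω N hN hodd
  have : IsNoetherianRing R := Algebra.FiniteType.isNoetherianRing ℤ R
  have hinj : Function.Injective (algebraMap R k) := IsFractionRing.injective R k
  have : CharP k p := charP_of_injective_algebraMap hinj p
  have hp2 : p ≠ 2 := by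
    rintro rfl
    obtain ⟨n, rfl⟩ : ∃ n, ν = n + 1 := ⟨ν - 1, by omega⟩
    rw [pow_succ] at h4
    omega
  have h2k : (2 : k) ≠ 0 := by
    have h3 : ((2 : ℕ) : k) ≠ 0 := by
      rw [Ne, CharP.cast_eq_zero_iff k p]
      intro hd
      exact hp2 ((Nat.prime_dvd_prime_iff_eq Fact.out Nat.prime_two).1 hd)
    exact_mod_cast h3
  have h2 : (2 : R) ≠ 0 := by
    intro h0
    apply h2k
    rw [← map_ofNat (algebraMap R k) 2, h0, map_zero]
  -- the root of unity is in `R`
  obtain ⟨w, hw⟩ : ∃ w : R, algebraMap R k w = ω := by
    apply IsIntegrallyClosed.isIntegral_iff.1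
    refine ⟨X ^ (p ^ ν + 1) - C 1, monic_X_pow_sub_C _ (Nat.succ_ne_zero _), ?_⟩
    simp [hω.pow_eq_one]
  have hw' : IsPrimitiveRoot (algebraMap R k w) (p ^ ν + 1) := by rw [hw]; exact hω
  have hcard : ∀ M : Ideal R, (Nat.card (Fin (N + 1) → R ⧸ M) : ℝ) =
      (Nat.card (R ⧸ M) : ℝ) ^ (Fintype.card (Fin (N + 1))) := by
    intro M
    rw [Nat.card_fun, Fintype.card_fin, Nat.card_fin]
    push_cast
    rfl
  have key : ∀ η : ℝ, 0 < η → ∃ M : Ideal R, Finite (R ⧸ M) ∧
      ∀ f : R[X], f ≠ 0 → 2 * f.natDegree < N →
      (1 - η) * (Nat.card (R ⧸ M) : ℝ) ^ (Fintype.card (Fin (N + 1))) ≤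
        (({x : Fin (N + 1) → R ⧸ M | ∀ y : Fin (N + 1) → R,
          (∀ j, Ideal.Quotient.mk M (y j) = x j) →
            Good k (p ^ ν) N (f.map (algebraMap R k)) (poly k y)}).ncard : ℝ) := by
    intro η hη
    obtain ⟨M, hM, hd⟩ := Pool.Agent.X243.Gen.densAff R hR h2 (I := Option (Fin (p ^ ν + 1)))
      (by omega : 3 ≤ N) (l := fun _ => 1) (fun _ => one_ne_zero) η hη
    have := hM
    refine ⟨M, hM, fun f hf0 hfd => ?_⟩
    refine (hd (Pool.Agent.X243.Gen.shf N (p ^ ν) w f)).trans ?_
    have h3 : ∀ S T : Set (Fin (N + 1) → R ⧸ M), S ⊆ T →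
        ((S.ncard : ℕ) : ℝ) ≤ ((T.ncard : ℕ) : ℝ) := fun S T h => by
      exact_mod_cast Set.ncard_le_ncard h (Set.toFinite _)
    apply h3
    intro x hx y hy
    obtain ⟨k1, k2⟩ := Pool.Agent.X243.Gen.adm_good (k := k) (B := 2 * N + 2)
      (c := ∏ _i : Option (Fin (p ^ ν + 1)), (1 : R)) (by omega : 3 ≤ N) hw' hfd (y := y) (by
        intro s
        obtain ⟨P, hP, hP'⟩ := hx s
        exact ⟨P, hP, hP' y hy⟩) rfl
      (h' := poly k y) (Pool.Agent.X243.Tate.bF_map (algebraMap R k) y).symm
    have hf0' : f.map (algebraMap R k) ≠ 0 := (Polynomial.map_ne_zero_iff hinj).2 hf0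
    have hfd' : 2 * (f.map (algebraMap R k)).natDegree < N := by
      rw [natDegree_map_eq_of_injective hinj]
      exact hfd
    refine ⟨k1.1.2, ⟨hf0', ?_, ?_, ⟨k1.1.1, k1.2.1⟩, fun ζ hζ => ⟨(k2 ζ hζ).1.1, (k2 ζ hζ).2.1⟩⟩,
      ?_, ?_⟩
    · rw [k1.1.2]
      exact hfd'
    · rw [k1.1.2]
      exact hodd
    · intro L L' K F _ _ _ _ _ _ _ _ _ _ _ _ hT M hMn hM h1 hz
      exact Pool.Agent.X243.Gen.adm_ext h4 hν h2k hi hω hN hodd hf0' hfd' k1 k2 hT M hMn hM h1 hz
    · intro L L' K F _ _ _ _ _ _ _ _ _ _ _ _ hT hM
      exact Pool.Agent.X243.Gen.adm_solv h4 hν h2k hi hω hN hodd hf0' hfd' k1 k2 hT hM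
  constructor
  · intro η hη
    obtain ⟨M, hM, hd⟩ := key η hη
    refine ⟨M, hM, fun f hf0 hfd => ?_⟩
    rw [hcard]
    exact hd f hf0 hfd
  · intro f hf0 hfd B hB heq
    have hlim := Pool.Agent.X243.Gen.tendsto_of_dens
      {y : Fin (N + 1) → R | Good k (p ^ ν) N (f.map (algebraMap R k)) (poly k y)}
      (fun η hη => by
        obtain ⟨M, hM, hd⟩ := key η hη
        exact ⟨M, hM, hd f hf0 hfd⟩) B hB (by
        intro M hM x
        have h1 := heq M hM x
        rw [hcard] at h1
        refine h1.congr fun i => ?_
        have e : ∀ d : DecidablePred fun y : Fin (N + 1) → R =>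
            ∀ j, Ideal.Quotient.mk M (y j) = x j, (B i).filter (fun y => InClass y x) =
              @Finset.filter _ (fun y => ∀ j, Ideal.Quotient.mk M (y j) = x j) d (B i) := by
          intro d
          ext y
          rw [Finset.mem_filter, Finset.mem_filter]
          exact Iff.rfl
        exact congrArg (fun s : Finset (Fin (N + 1) → R) => (s.card : ℝ) / ((B i).card : ℝ)) (e _))
    refine hlim.congr fun i => ?_
    have e : ∀ d : DecidablePred fun y : Fin (N + 1) → R => y ∈ {y : Fin (N + 1) → R |
        Good k (p ^ ν) N (f.map (algebraMap R k)) (poly k y)},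
        @Finset.filter _ (fun y => y ∈ {y : Fin (N + 1) → R |
          Good k (p ^ ν) N (f.map (algebraMap R k)) (poly k y)}) d (B i) =
        (B i).filter (fun y => Good k (p ^ ν) N (f.map (algebraMap R k)) (poly k y)) := by
      intro d
      ext y
      rw [Finset.mem_filter, Finset.mem_filter]
      exact Iff.rfl
    exact congrArg (fun s : Finset (Fin (N + 1) → R) => (s.card : ℝ) / ((B i).card : ℝ)) (e _)

end Pool.Agent.Results.MP_17a657_ag.UnboundedRankAlmostAll
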